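import Pool.Agent.L0h51.LT.Sel
import Pool.Agent.L0h32.LT2.Stm

/-!
# Selection of the number of labels, the multiplicity and the sampling rate (part SEL2 of LT2)
-/

set_option autoImplicit false
set_option linter.all false
set_option maxHeartbeats 2000000

open Finset
open scoped Classical

namespace Pool.Agent.L0h6.LT2

open Pool.Agent.L0h32.LT Pool.Agent.L0h32.LT2 Pool.Agent.L0h51.LT

/-- The second moment argument. -/
theorem core {J D E Q Θ n r ℓ j : ℕ} (hJ1 : 1 ≤ J) (hjJ : j ≤ J) (hD1 : 1 ≤ D) (hE : 1 ≤ E)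
    (hQ4 : 4 ≤ Q) (hΘ1 : 1 ≤ Θ) (hn0 : 0 < n) (hn : 64 * D * (J * ℓ + 1) ≤ n)
    (t : Fin n → Finset (Fin r)) (hℓ : ∀ s, (univ.filter fun i => s ∈ t i).card ≤ ℓ)
    {φ : ℝ} (hφ : φ = (nu t j : ℝ) * (1 / (Q : ℝ)) ^ j) (hφ0 : 0 < φ)
    (hS : ∑ i ∈ univ.filter (fun i => (t i).card ≠ j), (2 / (Q : ℝ)) ^ (t i).card ≤ φ / E)
    (hΘa : (Θ : ℝ) * n ≤ φ * D) (hΘb : φ * D ≤ 2 * Θ * n) :
    Q ^ r * Θ ^ n ≤ 2 * (univ.filter fun Fh : (Fin r → Fin Q) × (Fin n → Fin Θ) =>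
      Good D E j t Fh.1 Fh.2).card := by
  obtain ⟨N, hN⟩ : ∃ N : ℕ, N = nu t j := ⟨_, rfl⟩
  rw [← hN] at hφ
  have hQr : (4 : ℝ) ≤ Q := by exact_mod_cast hQ4
  have hQ0 : (0 : ℝ) < Q := by linarith
  have hEr : (1 : ℝ) ≤ E := by exact_mod_cast hE
  have hJr : (1 : ℝ) ≤ J := by exact_mod_cast hJ1
  have hnr : (0 : ℝ) < n := by exact_mod_cast hn0
  have hDr : (1 : ℝ) ≤ D := by exact_mod_cast hD1
  have hΘr : (1 : ℝ) ≤ Θ := by exact_mod_cast hΘ1
  obtain ⟨μ, hμ⟩ : ∃ μ : ℝ, μ = φ / Θ := ⟨_, rfl⟩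
  have hΘ0 : (0 : ℝ) < Θ := by linarith
  have hμ0 : 0 < μ := by rw [hμ]; positivity
  have hμa : (n : ℝ) ≤ D * μ := by
    rw [hμ, mul_div_assoc', le_div_iff₀ hΘ0]
    linarith
  have hμb : D * μ ≤ 2 * n := by
    rw [hμ, mul_div_assoc', div_le_iff₀ hΘ0]
    linarith
  have hμ64 : 64 * ((J * ℓ + 1 : ℕ) : ℝ) ≤ μ := by
    have h1 : 64 * (D : ℝ) * ((J * ℓ + 1 : ℕ) : ℝ) ≤ D * μ := by
      refine le_trans ?_ hμa
      exact_mod_cast hn
    have h2 : (D : ℝ) * (64 * ((J * ℓ + 1 : ℕ) : ℝ)) ≤ D * μ := by linarith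
    exact le_of_mul_le_mul_left h2 (by linarith)
  obtain ⟨T, hT⟩ : ∃ T : ℝ, T = (Q : ℝ) ^ r * (Θ : ℝ) ^ n := ⟨_, rfl⟩
  have hT0 : 0 ≤ T := by rw [hT]; positivity
  have hcT : (Fintype.card (Om r n Q Θ) : ℝ) = T := by rw [hT]; exact card_om r n Q Θ
  have hQpos : 0 < Q := by omega
  have hΘpos : 0 < Θ := hΘ1
  -- the label sets
  obtain ⟨Lc, hLc⟩ : ∃ Lc : ℕ → Finset (Fin Q), Lc = fun c => univ.filter fun x : Fin Q => (x : ℕ) = c :=
    ⟨_, rfl⟩
  have hLc1 : ∀ c < Q, (Lc c).card = 1 := by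
    intro c hc
    rw [hLc, card_eq_one]
    refine ⟨⟨c, hc⟩, ?_⟩
    ext x
    simp [Fin.ext_iff]
  obtain ⟨I, hI⟩ : ∃ I : Finset (Fin n), I = univ.filter fun i => (t i).card = j := ⟨_, rfl⟩
  have hIc : I.card = N := by rw [hI, hN]; rfl
  have hIj : ∀ i ∈ I, (t i).card = j := by
    intro i hi
    rw [hI] at hi
    exact (mem_filter.1 hi).2
  obtain ⟨X, hX⟩ : ∃ X : ℕ → Om r n Q Θ → ℝ, X = fun c ω =>
      ((I.filter fun i => (ω.2 i : ℕ) = 0 ∧ ∀ s ∈ t i, ω.1 s ∈ Lc c).card : ℝ) := ⟨_, rfl⟩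
  have hbad : ∀ c < Q, ((univ.filter fun ω => X c ω < μ / 2).card : ℝ) ≤ T / 16 := by
    intro c hc
    have m1 := mom1 (r := r) (n := n) hQpos hΘpos t (Lc c) I
    have m2 := mom2 hQpos hΘpos t (Lc c) (hLc1 c hc) I hIj hℓ
    rw [hLc1 c hc, Nat.cast_one, ← hT] at m1
    rw [← hT, hIc] at m2
    have e1 : ∑ i ∈ I, (1 / (Q : ℝ)) ^ (t i).card * (1 / (Θ : ℝ)) = μ := by
      rw [sum_congr rfl (fun i hi => by rw [hIj i hi]), sum_const, hIc, nsmul_eq_mul, hμ, hφ]
      ring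
    rw [e1] at m1
    have e2 : (N : ℝ) * (1 / (Q : ℝ)) ^ j / Θ = μ := by rw [hμ, hφ]
    rw [e2] at m2
    have c1 := cheb (X c) (T := T) (μ := μ) (V := μ * (((j * ℓ : ℕ) : ℝ) + 1)) hcT
      (by rw [hX]; exact m1) (by rw [hX]; exact m2) hμ0.le
    generalize ((univ.filter fun ω => X c ω < μ / 2).card : ℝ) = b at c1 ⊢
    have h1 : b * μ ≤ 4 * T * (((j * ℓ : ℕ) : ℝ) + 1) := by
      have h2 : μ * (b * μ) ≤ μ * (4 * T * (((j * ℓ : ℕ) : ℝ) + 1)) := by linarith
      exact le_of_mul_le_mul_left h2 hμ0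
    have h3 : (((j * ℓ : ℕ) : ℝ) + 1) ≤ ((J * ℓ + 1 : ℕ) : ℝ) := by
      have : j * ℓ + 1 ≤ J * ℓ + 1 := by
        have := Nat.mul_le_mul_right ℓ hjJ
        omega
      exact_mod_cast this
    have h4 : b * μ ≤ (T / 16) * μ := by
      calc b * μ ≤ 4 * T * (((j * ℓ : ℕ) : ℝ) + 1) := h1
        _ ≤ 4 * T * ((J * ℓ + 1 : ℕ) : ℝ) := mul_le_mul_of_nonneg_left h3 (by positivity)
        _ = (T / 16) * (64 * ((J * ℓ + 1 : ℕ) : ℝ)) := by ring
        _ ≤ (T / 16) * μ := mul_le_mul_of_nonneg_left hμ64 (by positivity)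
    exact le_of_mul_le_mul_right h4 hμ0
  -- the other sets
  obtain ⟨I', hI'⟩ : ∃ I' : Finset (Fin n), I' = univ.filter fun i => (t i).card ≠ j := ⟨_, rfl⟩
  obtain ⟨L2, hL2⟩ : ∃ L2 : Finset (Fin Q), L2 = Lc 0 ∪ Lc 1 := ⟨_, rfl⟩
  have hL2c : (L2.card : ℝ) ≤ 2 := by
    have : L2.card ≤ 2 := by
      rw [hL2]
      refine (card_union_le _ _).trans ?_
      rw [hLc1 0 (by omega), hLc1 1 (by omega)]
    exact_mod_cast this
  obtain ⟨Y, hY⟩ : ∃ Y : Om r n Q Θ → ℝ, Y = fun ω =>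
      ((I'.filter fun i => (ω.2 i : ℕ) = 0 ∧ ∀ s ∈ t i, ω.1 s ∈ L2).card : ℝ) := ⟨_, rfl⟩
  have hbadY : ((univ.filter fun ω => 16 * n / (E * D) < Y ω).card : ℝ) ≤ T / 8 := by
    have m1 := mom1 (r := r) (n := n) hQpos hΘpos t L2 I'
    rw [← hT] at m1
    have h1 : ∑ ω, Y ω ≤ T * (2 * n / (E * D)) := by
      rw [hY, m1]
      refine mul_le_mul_of_nonneg_left ?_ hT0
      rw [← sum_mul]
      have h2 : ∑ i ∈ I', ((L2.card : ℝ) / Q) ^ (t i).card ≤ φ / E := by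
        refine le_trans (sum_le_sum fun i _ => ?_) (hI' ▸ hS)
        exact pow_le_pow_left₀ (by positivity) (by gcongr) _
      refine (mul_le_mul_of_nonneg_right h2 (by positivity)).trans ?_
      rw [le_div_iff₀ (by positivity)]
      calc φ / E * (1 / Θ) * (E * D) = D * μ := by
            rw [hμ]
            field_simp
        _ ≤ 2 * n := hμb
    have c1 := markov Y (a := 16 * n / (E * D)) (fun ω => by rw [hY]; positivity) h1
    generalize ((univ.filter fun ω => 16 * n / (E * D) < Y ω).card : ℝ) = b at c1 ⊢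
    have h3 : (0 : ℝ) < 16 * n / (E * D) := by positivity
    have h4 : b * (16 * n / (E * D)) ≤ (T / 8) * (16 * n / (E * D)) := by
      refine c1.trans (le_of_eq ?_)
      ring
    exact le_of_mul_le_mul_right h4 h3
  -- conclusion
  have hcov : (univ : Finset (Om r n Q Θ)) ⊆
      (((univ.filter fun Fh : Om r n Q Θ => Good D E j t Fh.1 Fh.2) ∪
        (univ.filter fun ω => X 0 ω < μ / 2)) ∪ (univ.filter fun ω => X 1 ω < μ / 2)) ∪
        (univ.filter fun ω => 16 * n / (E * D) < Y ω) := by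
    intro ω _
    rw [mem_union, mem_union, mem_union, mem_filter, mem_filter, mem_filter, mem_filter]
    by_cases a1 : X 0 ω < μ / 2
    · exact Or.inl (Or.inl (Or.inr ⟨mem_univ _, a1⟩))
    by_cases a2 : X 1 ω < μ / 2
    · exact Or.inl (Or.inr ⟨mem_univ _, a2⟩)
    by_cases a3 : 16 * n / (E * D) < Y ω
    · exact Or.inr ⟨mem_univ _, a3⟩
    refine Or.inl (Or.inl (Or.inl ⟨mem_univ _, ?_, ?_, ?_⟩))
    · have h1 : X 0 ω ≤ ((univ.filter fun i => (ω.2 i : ℕ) = 0 ∧ ∀ s ∈ t i, (ω.1 s : ℕ) = 0).card : ℝ) := by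
        rw [hX]
        beta_reduce
        have : (I.filter fun i => (ω.2 i : ℕ) = 0 ∧ ∀ s ∈ t i, ω.1 s ∈ Lc 0).card ≤
            (univ.filter fun i => (ω.2 i : ℕ) = 0 ∧ ∀ s ∈ t i, (ω.1 s : ℕ) = 0).card := by
          refine card_le_card fun i hi => ?_
          obtain ⟨-, b1, b2⟩ := mem_filter.1 hi
          refine mem_filter.2 ⟨mem_univ _, b1, fun s hs => ?_⟩
          have := b2 s hs
          rw [hLc] at this
          exact (mem_filter.1 this).2
        exact_mod_cast this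
      rw [not_lt] at a1
      have h2 : (n : ℝ) ≤ 2 * D *
          ((univ.filter fun i => (ω.2 i : ℕ) = 0 ∧ ∀ s ∈ t i, (ω.1 s : ℕ) = 0).card : ℝ) := by
        have h3 := a1.trans h1
        have h4 := mul_le_mul_of_nonneg_left h3 (show (0 : ℝ) ≤ 2 * D by positivity)
        linarith
      exact_mod_cast h2
    · have h1 : X 1 ω ≤ ((univ.filter fun i => (ω.2 i : ℕ) = 0 ∧ ∀ s ∈ t i, (ω.1 s : ℕ) = 1).card : ℝ) := by
        rw [hX]
        beta_reduce
        have : (I.filter fun i => (ω.2 i : ℕ) = 0 ∧ ∀ s ∈ t i, ω.1 s ∈ Lc 1).card ≤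
            (univ.filter fun i => (ω.2 i : ℕ) = 0 ∧ ∀ s ∈ t i, (ω.1 s : ℕ) = 1).card := by
          refine card_le_card fun i hi => ?_
          obtain ⟨-, b1, b2⟩ := mem_filter.1 hi
          refine mem_filter.2 ⟨mem_univ _, b1, fun s hs => ?_⟩
          have := b2 s hs
          rw [hLc] at this
          exact (mem_filter.1 this).2
        exact_mod_cast this
      rw [not_lt] at a2
      have h2 : (n : ℝ) ≤ 2 * D *
          ((univ.filter fun i => (ω.2 i : ℕ) = 0 ∧ ∀ s ∈ t i, (ω.1 s : ℕ) = 1).card : ℝ) := by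
        have h3 := a2.trans h1
        have h4 := mul_le_mul_of_nonneg_left h3 (show (0 : ℝ) ≤ 2 * D by positivity)
        linarith
      exact_mod_cast h2
    · have h1 : ((univ.filter fun i => (ω.2 i : ℕ) = 0 ∧ (t i).card ≠ j ∧
          ∀ s ∈ t i, (ω.1 s : ℕ) = 0 ∨ (ω.1 s : ℕ) = 1).card : ℝ) ≤ Y ω := by
        rw [hY]
        beta_reduce
        have : (univ.filter fun i => (ω.2 i : ℕ) = 0 ∧ (t i).card ≠ j ∧
            ∀ s ∈ t i, (ω.1 s : ℕ) = 0 ∨ (ω.1 s : ℕ) = 1).card ≤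
            (I'.filter fun i => (ω.2 i : ℕ) = 0 ∧ ∀ s ∈ t i, ω.1 s ∈ L2).card := by
          refine card_le_card fun i hi => ?_
          obtain ⟨-, b1, b2, b3⟩ := mem_filter.1 hi
          refine mem_filter.2 ⟨?_, b1, fun s hs => ?_⟩
          · rw [hI']
            exact mem_filter.2 ⟨mem_univ _, b2⟩
          · rw [hL2, hLc, mem_union, mem_filter, mem_filter]
            rcases b3 s hs with h | h
            · exact Or.inl ⟨mem_univ _, h⟩
            · exact Or.inr ⟨mem_univ _, h⟩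
        exact_mod_cast this
      rw [not_lt] at a3
      have h2 := h1.trans a3
      rw [le_div_iff₀ (by positivity)] at h2
      have h3 : (E : ℝ) * D * ((univ.filter fun i => (ω.2 i : ℕ) = 0 ∧ (t i).card ≠ j ∧
          ∀ s ∈ t i, (ω.1 s : ℕ) = 0 ∨ (ω.1 s : ℕ) = 1).card : ℝ) ≤ 16 * n := by linarith
      exact_mod_cast h3
  have hc := (card_le_card hcov).trans ((card_union_le _ _).trans (Nat.add_le_add_right
    ((card_union_le _ _).trans (Nat.add_le_add_right (card_union_le _ _) _)) _))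
  rw [card_univ] at hc
  have hc' : (Fintype.card (Om r n Q Θ) : ℝ) ≤
      (((univ.filter fun Fh : Om r n Q Θ => Good D E j t Fh.1 Fh.2).card : ℝ) +
        ((univ.filter fun ω => X 0 ω < μ / 2).card : ℝ)) +
        ((univ.filter fun ω => X 1 ω < μ / 2).card : ℝ) +
        ((univ.filter fun ω => 16 * n / (E * D) < Y ω).card : ℝ) := by exact_mod_cast hc
  rw [hcT] at hc'
  have b0 := hbad 0 (by omega)
  have b1 := hbad 1 (by omega)
  have hfin : T ≤ 2 * ((univ.filter fun Fh : Om r n Q Θ => Good D E j t Fh.1 Fh.2).card : ℝ) := by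
    linarith
  rw [hT] at hfin
  exact_mod_cast hfin


/-- The number of the variables read at most `J` times. -/
theorem card_le_eq {n r J : ℕ} (t : Fin n → Finset (Fin r)) (hne : ∀ i, (t i).Nonempty) :
    (univ.filter fun i => (t i).card ≤ J).card = ∑ j ∈ Icc 1 J, nu t j := by
  rw [card_eq_sum_card_fiberwise (f := fun i => (t i).card) (t := Icc 1 J)]
  · refine sum_congr rfl fun j hj => ?_
    rw [mem_Icc] at hj
    unfold nu
    congr 1
    ext i
    simp only [mem_filter, mem_univ, true_and]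
    constructor
    · exact fun h => h.2
    · exact fun h => ⟨by omega, h⟩
  · intro i hi
    have hi' : (t i).card ≤ J := by simpa using hi
    have := (hne i).card_pos
    simp only [coe_Icc, Set.mem_Icc]
    exact ⟨this, hi'⟩

theorem card_gt {k n r : ℕ} (hk : 1 ≤ k)
    (t : Fin n → Finset (Fin r)) (hsum : ∑ i, (t i).card ≤ k * n) :
    2 * (univ.filter fun i => ¬ (t i).card ≤ 2 * k).card ≤ n := by
  have h3 : (univ.filter fun i => ¬ (t i).card ≤ 2 * k).card * (2 * k + 1) ≤ k * n := by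
    refine le_trans ?_ hsum
    rw [← smul_eq_mul, ← sum_const]
    refine (sum_le_sum fun i hi => ?_).trans
      (sum_le_sum_of_subset (f := fun i => (t i).card) (filter_subset _ _))
    have := (mem_filter.1 hi).2
    omega
  generalize (univ.filter fun i => ¬ (t i).card ≤ 2 * k).card = b at *
  have h6 : k * (2 * b) ≤ k * n := by nlinarith
  exact Nat.le_of_mul_le_mul_left h6 (by omega)

theorem exists_star {k n r : ℕ} (hk : 1 ≤ k)
    (t : Fin n → Finset (Fin r)) (hne : ∀ i, (t i).Nonempty) (hsum : ∑ i, (t i).card ≤ k * n) :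
    ∃ j, 1 ≤ j ∧ j ≤ 2 * k ∧ n ≤ 2 * (2 * k) * nu t j := by
  by_contra hcon
  push Not at hcon
  have h1 : ∀ j ∈ Icc 1 (2 * k), 2 * (2 * k) * nu t j + 1 ≤ n := by
    intro j hj
    rw [mem_Icc] at hj
    have h2 := hcon j hj.1 hj.2
    omega
  have h2 := card_le_eq (J := 2 * k) t hne
  have h3 := card_gt hk t hsum
  have h4 := card_filter_add_card_filter_not (s := (univ : Finset (Fin n)))
    (fun i => (t i).card ≤ 2 * k)
  rw [card_univ, Fintype.card_fin, h2] at h4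
  have h5 : ∑ j ∈ Icc 1 (2 * k), (2 * (2 * k) * nu t j + 1) ≤ (2 * k) * n := by
    refine (sum_le_sum h1).trans ?_
    rw [sum_const, Nat.card_Icc, smul_eq_mul]
    exact le_of_eq (by rw [Nat.add_sub_cancel])
  rw [sum_add_distrib, ← mul_sum, sum_const, Nat.card_Icc, Nat.add_sub_cancel, smul_eq_mul,
    mul_one] at h5
  generalize (∑ j ∈ Icc 1 (2 * k), nu t j) = a at *
  generalize (univ.filter fun i => ¬ (t i).card ≤ 2 * k).card = b at *
  have h6 : (2 * k) * (2 * a + 1) ≤ (2 * k) * n := by nlinarith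
  have h7 := Nat.le_of_mul_le_mul_left h6 (by omega)
  omega

/-- The maximizers are monotone, so two of them, at distance two, agree. -/
theorem exists_u {J : ℕ} (hJ : 1 ≤ J) {L : ℝ} (hL : 1 < L) (w : ℕ → ℕ)
    (hw : ∃ j, 1 ≤ j ∧ j ≤ J ∧ 0 < w j) :
    ∃ u j : ℕ, 2 ≤ u ∧ u ≤ 2 * J ∧ 1 ≤ j ∧ j ≤ J ∧ ∀ j', 1 ≤ j' → j' ≤ J → j' ≠ j →
      (w j' : ℝ) * (1 / L ^ u) ^ j' ≤ (w j : ℝ) * (1 / L ^ u) ^ j / L := by
  have hL0 : (0 : ℝ) < L := by linarith
  have hmax : ∀ u : ℕ, ∃ j ∈ Icc 1 J, ∀ j' ∈ Icc 1 J,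
      (w j' : ℝ) * (1 / L ^ u) ^ j' ≤ (w j : ℝ) * (1 / L ^ u) ^ j := fun u =>
    exists_max_image (Icc 1 J) (fun j => (w j : ℝ) * (1 / L ^ u) ^ j) ⟨1, by simp [hJ]⟩
  choose a ha hamax using hmax
  have hpos : ∀ u, 0 < w (a u) := by
    intro u
    obtain ⟨j, h1, h2, h3⟩ := hw
    have h4 := hamax u j (by rw [mem_Icc]; exact ⟨h1, h2⟩)
    have h5 : (0 : ℝ) < (w j : ℝ) * (1 / L ^ u) ^ j := by
      have : (0 : ℝ) < w j := by exact_mod_cast h3
      positivity
    by_contra h6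
    have h7 : w (a u) = 0 := by omega
    rw [h7, Nat.cast_zero, zero_mul] at h4
    linarith
  -- comparison of powers
  have hpw : ∀ (u d i : ℕ), (1 / L ^ u) ^ (i + d) = (1 / L ^ u) ^ i / L ^ (u * d) := by
    intro u d i
    rw [pow_add, one_div, inv_pow, inv_pow, ← pow_mul, ← pow_mul, ← div_eq_mul_inv]
  have hanti : ∀ u, a (u + 1) ≤ a u := by
    intro u
    by_contra hlt
    rw [not_le] at hlt
    obtain ⟨d, hd⟩ : ∃ d, a (u + 1) = a u + (d + 1) := ⟨a (u + 1) - a u - 1, by omega⟩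
    have h1 := hamax u (a (u + 1)) (ha _)
    have h2 := hamax (u + 1) (a u) (ha _)
    rw [hd, hpw] at h1
    rw [hd] at h2
    rw [hpw] at h2
    have hx : (0 : ℝ) < w (a u) := by exact_mod_cast hpos u
    have hy : (0 : ℝ) < w (a u + (d + 1)) := by
      have := hpos (u + 1)
      rw [hd] at this
      exact_mod_cast this
    generalize (w (a u) : ℝ) = x at *
    generalize (w (a u + (d + 1)) : ℝ) = y at *
    have p1 : (0 : ℝ) < (1 / L ^ u) ^ a u := by positivity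
    have p2 : (0 : ℝ) < (1 / L ^ (u + 1)) ^ a u := by positivity
    have q1 : y ≤ x * L ^ (u * (d + 1)) := by
      rw [mul_div_assoc', div_le_iff₀ (by positivity)] at h1
      have : (1 / L ^ u) ^ a u * y ≤ (1 / L ^ u) ^ a u * (x * L ^ (u * (d + 1))) := by linarith
      exact le_of_mul_le_mul_left this p1
    have q2 : x * L ^ ((u + 1) * (d + 1)) ≤ y := by
      rw [mul_div_assoc', le_div_iff₀ (by positivity)] at h2
      have : (1 / L ^ (u + 1)) ^ a u * (x * L ^ ((u + 1) * (d + 1))) ≤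
          (1 / L ^ (u + 1)) ^ a u * y := by linarith
      exact le_of_mul_le_mul_left this p2
    have q3 := q2.trans q1
    have q4 := le_of_mul_le_mul_left q3 hx
    have q5 : L ^ (u * (d + 1)) < L ^ ((u + 1) * (d + 1)) :=
      pow_lt_pow_right₀ hL (by nlinarith)
    linarith
  have hex : ∃ i, i < J ∧ a (2 * i + 1) = a (2 * i + 3) := by
    by_contra hcon
    push Not at hcon
    have h1 : ∀ i, i ≤ J → a (2 * i + 1) + i ≤ J := by
      intro i
      induction i with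
      | zero =>
        intro _
        have := ha (2 * 0 + 1)
        rw [mem_Icc] at this
        omega
      | succ i ih =>
        intro hi
        have h2 := ih (by omega)
        have h3 := hcon i (by omega)
        have h4 : a (2 * i + 3) ≤ a (2 * i + 1) := (hanti (2 * i + 2)).trans (hanti (2 * i + 1))
        have h5 : 2 * (i + 1) + 1 = 2 * i + 3 := by ring
        rw [h5]
        omega
    have h2 := h1 J le_rfl
    have h3 := ha (2 * J + 1)
    rw [mem_Icc] at h3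
    omega
  obtain ⟨i, hi, hia⟩ := hex
  refine ⟨2 * i + 2, a (2 * i + 1), by omega, by omega, (mem_Icc.1 (ha _)).1, (mem_Icc.1 (ha _)).2,
    ?_⟩
  intro j' h1 h2 h3
  rcases lt_or_gt_of_ne h3 with h | h
  · -- smaller multiplicities
    obtain ⟨d, hd⟩ : ∃ d, a (2 * i + 1) = j' + (d + 1) := ⟨a (2 * i + 1) - j' - 1, by omega⟩
    have h4 := hamax (2 * i + 3) j' (by rw [mem_Icc]; exact ⟨h1, h2⟩)
    rw [← hia, hd, hpw] at h4
    rw [hd, hpw]
    have hx : (0 : ℝ) ≤ w j' := by positivity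
    have hy : (0 : ℝ) ≤ w (j' + (d + 1)) := by positivity
    generalize (w j' : ℝ) = x at *
    generalize (w (j' + (d + 1)) : ℝ) = y at *
    have p1 : (0 : ℝ) < (1 / L ^ (2 * i + 3)) ^ j' := by positivity
    have p2 : (0 : ℝ) < (1 / L ^ (2 * i + 2)) ^ j' := by positivity
    have q1 : x * L ^ ((2 * i + 3) * (d + 1)) ≤ y := by
      rw [mul_div_assoc', le_div_iff₀ (by positivity)] at h4
      have : (1 / L ^ (2 * i + 3)) ^ j' * (x * L ^ ((2 * i + 3) * (d + 1))) ≤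
          (1 / L ^ (2 * i + 3)) ^ j' * y := by linarith
      exact le_of_mul_le_mul_left this p1
    have q2 : x * L ^ ((2 * i + 2) * (d + 1)) * L ≤ y := by
      refine le_trans ?_ q1
      rw [mul_assoc, ← pow_succ]
      exact mul_le_mul_of_nonneg_left (pow_le_pow_right₀ hL.le (by nlinarith)) hx
    rw [mul_div_assoc', div_div, le_div_iff₀ (by positivity)]
    calc x * (1 / L ^ (2 * i + 2)) ^ j' * (L ^ ((2 * i + 2) * (d + 1)) * L)
        = (x * L ^ ((2 * i + 2) * (d + 1)) * L) * (1 / L ^ (2 * i + 2)) ^ j' := by ring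
      _ ≤ y * (1 / L ^ (2 * i + 2)) ^ j' := mul_le_mul_of_nonneg_right q2 p2.le
  · -- larger multiplicities
    obtain ⟨j, hj⟩ : ∃ j, j = a (2 * i + 1) := ⟨_, rfl⟩
    obtain ⟨d, hd⟩ : ∃ d, j' = j + (d + 1) := ⟨j' - j - 1, by omega⟩
    have h4 := hamax (2 * i + 1) j' (by rw [mem_Icc]; exact ⟨h1, h2⟩)
    rw [← hj] at h4 ⊢
    rw [hd, hpw] at h4
    rw [hd, hpw]
    have hx : (0 : ℝ) ≤ w j := by positivity
    have hy : (0 : ℝ) ≤ w (j + (d + 1)) := by positivity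
    generalize (w j : ℝ) = x at *
    generalize (w (j + (d + 1)) : ℝ) = y at *
    have p1 : (0 : ℝ) < (1 / L ^ (2 * i + 1)) ^ j := by positivity
    have p2 : (0 : ℝ) < (1 / L ^ (2 * i + 2)) ^ j := by positivity
    have q1 : y ≤ x * L ^ ((2 * i + 1) * (d + 1)) := by
      rw [mul_div_assoc', div_le_iff₀ (by positivity)] at h4
      have : (1 / L ^ (2 * i + 1)) ^ j * y ≤
          (1 / L ^ (2 * i + 1)) ^ j * (x * L ^ ((2 * i + 1) * (d + 1))) := by linarith
      exact le_of_mul_le_mul_left this p1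
    have q2 : y * L ≤ x * L ^ ((2 * i + 2) * (d + 1)) := by
      refine (mul_le_mul_of_nonneg_right q1 hL0.le).trans ?_
      rw [mul_assoc, ← pow_succ]
      exact mul_le_mul_of_nonneg_left (pow_le_pow_right₀ hL.le (by nlinarith)) hx
    rw [mul_div_assoc', div_le_div_iff₀ (by positivity) (by positivity)]
    calc y * (1 / L ^ (2 * i + 2)) ^ j * L
        = (y * L) * (1 / L ^ (2 * i + 2)) ^ j := by ring
      _ ≤ (x * L ^ ((2 * i + 2) * (d + 1))) * (1 / L ^ (2 * i + 2)) ^ j :=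
        mul_le_mul_of_nonneg_right q2 p2.le
      _ = _ := by ring

theorem t_SEL2 : Pool.Agent.L0h32.LT2.S_SEL2 := by
  intro k y n r ℓ hk hn t hne hsum hℓ
  obtain ⟨J, hJ⟩ : ∃ J : ℕ, J = 2 * k := ⟨_, rfl⟩
  rw [← hJ] at hn ⊢
  obtain ⟨lm, hlm⟩ : ∃ lm : ℕ, lm = lam J y := ⟨_, rfl⟩
  have hlm' : lm = 2 * J + y + 3 := hlm
  obtain ⟨D, hD⟩ : ∃ D : ℕ, D = 2 ^ dex J y := ⟨_, rfl⟩
  have hdex : dex J y = 2 * lm * J ^ 2 + 2 * J + 2 := by rw [hlm]; rfl
  rw [← hlm]
  have hJ1 : 1 ≤ J := by omega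
  have hD1 : 1 ≤ D := by rw [hD]; exact Nat.one_le_two_pow
  have hn0 : 0 < n := by
    refine lt_of_lt_of_le ?_ hn
    positivity
  have hnr : (0 : ℝ) < n := by exact_mod_cast hn0
  obtain ⟨js, hs1, hs2, hs3⟩ := exists_star hk t hne hsum
  rw [← hJ] at hs2 hs3
  have hws : 0 < nu t js := by
    by_contra h
    have h0 : nu t js = 0 := by omega
    rw [h0, mul_zero] at hs3
    omega
  obtain ⟨L, hL⟩ : ∃ L : ℝ, L = 2 ^ lm := ⟨_, rfl⟩
  have hL1 : 1 < L := by
    rw [hL]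
    exact one_lt_pow₀ (by norm_num) (by omega)
  have hL0 : (0 : ℝ) < L := by linarith
  obtain ⟨u, j, hu2, huJ, hj1, hjJ, hcmp⟩ := exists_u hJ1 hL1 (fun j => nu t j)
    ⟨js, hs1, hs2, hws⟩
  obtain ⟨Q, hQ⟩ : ∃ Q : ℕ, Q = 2 ^ (lm * u) := ⟨_, rfl⟩
  have hQL : (Q : ℝ) = L ^ u := by
    rw [hQ, hL, ← pow_mul]
    push_cast
    rfl
  rw [← hQL] at hcmp
  have hQ4 : 4 ≤ Q := by
    rw [hQ, show (4 : ℕ) = 2 ^ 2 by norm_num]
    exact Nat.pow_le_pow_right (by norm_num) (by nlinarith)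
  have hQr : (4 : ℝ) ≤ Q := by exact_mod_cast hQ4
  have hQ0 : (0 : ℝ) < Q := by linarith
  obtain ⟨φ, hφ⟩ : ∃ φ : ℝ, φ = (nu t j : ℝ) * (1 / (Q : ℝ)) ^ j := ⟨_, rfl⟩
  have hφ' : 0 ≤ φ := by rw [hφ]; positivity
  have hq1 : (1 : ℝ) / Q ≤ 1 := by rw [div_le_one hQ0]; linarith
  have hq0 : (0 : ℝ) ≤ 1 / Q := by positivity
  have hstar : (nu t js : ℝ) * (1 / (Q : ℝ)) ^ js ≤ φ := by
    by_cases h : js = j
    · rw [h, hφ]
    · have h1 := hcmp js hs1 hs2 h
      rw [← hφ] at h1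
      exact h1.trans (div_le_self hφ' hL1.le)
  have hJr : (1 : ℝ) ≤ J := by exact_mod_cast hJ1
  have hs3r : (n : ℝ) ≤ 2 * J * nu t js := by exact_mod_cast hs3
  -- the main term is large
  have hbig : (n : ℝ) ≤ 2 * J * (Q : ℝ) ^ J * φ := by
    have h1 : (nu t js : ℝ) * (1 / (Q : ℝ)) ^ J ≤ φ := by
      refine le_trans ?_ hstar
      exact mul_le_mul_of_nonneg_left (pow_le_pow_of_le_one hq0 hq1 hs2) (by positivity)
    rw [one_div, inv_pow, ← div_eq_mul_inv, div_le_iff₀ (by positivity)] at h1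
    calc (n : ℝ) ≤ 2 * J * nu t js := hs3r
      _ ≤ 2 * J * (φ * (Q : ℝ) ^ J) := mul_le_mul_of_nonneg_left h1 (by positivity)
      _ = _ := by ring
  have hφ0 : 0 < φ := by
    rcases hφ'.lt_or_eq with h | h
    · exact h
    · rw [← h, mul_zero] at hbig
      linarith
  have hJ2 : J ≤ 2 ^ J := Nat.lt_two_pow_self.le
  have hDbig : 2 * J * Q ^ J ≤ D := by
    rw [hD, hdex, hQ, ← pow_mul]
    calc 2 * J * 2 ^ (lm * u * J) ≤ 2 ^ (2 * J + 2) * 2 ^ (2 * lm * J ^ 2) := by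
          refine Nat.mul_le_mul ?_ (Nat.pow_le_pow_right (by norm_num) ?_)
          · calc 2 * J ≤ 2 * 2 ^ J := by omega
              _ = 2 ^ (J + 1) := by rw [pow_succ]; ring
              _ ≤ _ := Nat.pow_le_pow_right (by norm_num) (by omega)
          · calc lm * u * J ≤ lm * (2 * J) * J :=
                  Nat.mul_le_mul_right _ (Nat.mul_le_mul_left _ huJ)
              _ = _ := by ring
      _ = _ := by rw [← pow_add]; congr 1; ring
  have hDbigr : 2 * (J : ℝ) * (Q : ℝ) ^ J ≤ D := by exact_mod_cast hDbig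
  have hDr : (1 : ℝ) ≤ D := by exact_mod_cast hD1
  have hφD : (n : ℝ) ≤ φ * D := by
    refine hbig.trans ?_
    rw [mul_comm φ]
    exact mul_le_mul_of_nonneg_right hDbigr hφ'
  have hφn : φ ≤ n := by
    rw [hφ]
    have h1 : (1 / (Q : ℝ)) ^ j ≤ 1 := pow_le_one₀ hq0 hq1
    have h2 : (nu t j : ℝ) ≤ n := by
      have : nu t j ≤ n := (card_le_univ _).trans (by rw [Fintype.card_fin])
      exact_mod_cast this
    calc (nu t j : ℝ) * (1 / (Q : ℝ)) ^ j ≤ nu t j * 1 :=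
          mul_le_mul_of_nonneg_left h1 (by positivity)
      _ ≤ n := by rw [mul_one]; exact h2
  have hE1 : 1 ≤ 2 ^ y := Nat.one_le_two_pow
  -- the other multiplicities
  have hS : ∑ i ∈ univ.filter (fun i => (t i).card ≠ j), (2 / (Q : ℝ)) ^ (t i).card ≤
      φ / ((2 ^ y : ℕ) : ℝ) := by
    have h20 : (0 : ℝ) ≤ 2 / Q := by positivity
    have h21 : 2 / (Q : ℝ) ≤ 1 := by rw [div_le_one hQ0]; linarith
    have hsplit : ∑ i ∈ univ.filter (fun i => (t i).card ≠ j), (2 / (Q : ℝ)) ^ (t i).card =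
        ∑ i ∈ (univ.filter (fun i => (t i).card ≠ j)).filter (fun i => (t i).card ≤ J),
          (2 / (Q : ℝ)) ^ (t i).card +
        ∑ i ∈ (univ.filter (fun i => (t i).card ≠ j)).filter (fun i => ¬ (t i).card ≤ J),
          (2 / (Q : ℝ)) ^ (t i).card := (sum_filter_add_sum_filter_not _ _ _).symm
    have hA : ∑ i ∈ (univ.filter (fun i => (t i).card ≠ j)).filter (fun i => (t i).card ≤ J),
          (2 / (Q : ℝ)) ^ (t i).card ≤ φ / (2 * ((2 ^ y : ℕ) : ℝ)) := by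
      have h1 : ∑ i ∈ (univ.filter (fun i => (t i).card ≠ j)).filter (fun i => (t i).card ≤ J),
          (2 / (Q : ℝ)) ^ (t i).card ≤ ∑ j' ∈ (Icc 1 J).erase j,
            (nu t j' : ℝ) * (2 / (Q : ℝ)) ^ j' := by
        rw [← sum_fiberwise_of_maps_to (s := (univ.filter (fun i => (t i).card ≠ j)).filter
          (fun i => (t i).card ≤ J)) (t := (Icc 1 J).erase j) (g := fun i => (t i).card)]
        · refine sum_le_sum fun j' _ => ?_
          rw [sum_congr rfl (g := fun _ => (2 / (Q : ℝ)) ^ j')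
            (fun i hi => by rw [(mem_filter.1 hi).2]), sum_const, nsmul_eq_mul]
          refine mul_le_mul_of_nonneg_right ?_ (by positivity)
          have : ((((univ.filter (fun i => (t i).card ≠ j)).filter
              (fun i => (t i).card ≤ J)).filter fun i => (t i).card = j').card) ≤ nu t j' := by
            unfold nu
            refine card_le_card fun i hi => ?_
            exact mem_filter.2 ⟨mem_univ _, (mem_filter.1 hi).2⟩
          exact_mod_cast this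
        · intro i hi
          obtain ⟨hi1, hi2⟩ := mem_filter.1 hi
          have hi3 := (mem_filter.1 hi1).2
          have := (hne i).card_pos
          rw [mem_erase, mem_Icc]
          exact ⟨hi3, this, hi2⟩
      have h2 : ∀ j' ∈ (Icc 1 J).erase j, (nu t j' : ℝ) * (2 / (Q : ℝ)) ^ j' ≤
          (φ / L) * 2 ^ j' := by
        intro j' hj'
        rw [mem_erase, mem_Icc] at hj'
        have h3 := hcmp j' hj'.2.1 hj'.2.2 hj'.1
        rw [← hφ] at h3
        calc (nu t j' : ℝ) * (2 / (Q : ℝ)) ^ j' = ((nu t j' : ℝ) * (1 / (Q : ℝ)) ^ j') * 2 ^ j' := by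
              rw [show (2 : ℝ) / Q = 1 / Q * 2 by ring, mul_pow]
              ring
          _ ≤ (φ / L) * 2 ^ j' := mul_le_mul_of_nonneg_right h3 (by positivity)
      have h4 : ∑ j' ∈ (Icc 1 J).erase j, (2 : ℝ) ^ j' ≤ 2 ^ (J + 1) := by
        calc ∑ j' ∈ (Icc 1 J).erase j, (2 : ℝ) ^ j' ≤ ∑ j' ∈ range (J + 1), (2 : ℝ) ^ j' := by
              refine sum_le_sum_of_subset_of_nonneg (fun x hx => ?_) fun _ _ _ => by positivity
              rw [mem_erase, mem_Icc] at hx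
              rw [mem_range]
              omega
          _ ≤ _ := by
            rw [geom_sum_eq (by norm_num)]
            norm_num
      have h5 : ∑ i ∈ (univ.filter (fun i => (t i).card ≠ j)).filter (fun i => (t i).card ≤ J),
          (2 / (Q : ℝ)) ^ (t i).card ≤ (φ / L) * 2 ^ (J + 1) := by
        refine h1.trans ((sum_le_sum h2).trans ?_)
        rw [← mul_sum]
        exact mul_le_mul_of_nonneg_left h4 (by positivity)
      refine h5.trans ?_
      rw [div_mul_eq_mul_div, div_le_div_iff₀ hL0 (by positivity), mul_assoc]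
      refine mul_le_mul_of_nonneg_left ?_ hφ'
      rw [hL, hlm']
      push_cast
      calc (2 : ℝ) ^ (J + 1) * (2 * 2 ^ y) = 2 ^ (J + y + 2) := by ring
        _ ≤ 2 ^ (2 * J + y + 3) := pow_le_pow_right₀ (by norm_num) (by omega)
    have hB : ∑ i ∈ (univ.filter (fun i => (t i).card ≠ j)).filter (fun i => ¬ (t i).card ≤ J),
          (2 / (Q : ℝ)) ^ (t i).card ≤ φ / (2 * ((2 ^ y : ℕ) : ℝ)) := by
      have h1 : ∑ i ∈ (univ.filter (fun i => (t i).card ≠ j)).filter (fun i => ¬ (t i).card ≤ J),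
          (2 / (Q : ℝ)) ^ (t i).card ≤ ((univ.filter fun i => ¬ (t i).card ≤ J).card : ℝ) *
            (2 / (Q : ℝ)) ^ (J + 1) := by
        refine (sum_le_sum_of_subset_of_nonneg (t := univ.filter fun i => ¬ (t i).card ≤ J)
          (fun i hi => mem_filter.2 ⟨mem_univ _, (mem_filter.1 hi).2⟩)
          fun _ _ _ => by positivity).trans ?_
        rw [← nsmul_eq_mul, ← sum_const]
        refine sum_le_sum fun i hi => ?_
        have := (mem_filter.1 hi).2
        exact pow_le_pow_of_le_one h20 h21 (by omega)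
      have h2 := card_gt hk t hsum
      rw [← hJ] at h2
      have h2r : ((univ.filter fun i => ¬ (t i).card ≤ J).card : ℝ) ≤ J * (Q : ℝ) ^ J * φ := by
        have : 2 * ((univ.filter fun i => ¬ (t i).card ≤ J).card : ℝ) ≤ n := by exact_mod_cast h2
        linarith
      refine h1.trans ((mul_le_mul_of_nonneg_right h2r (by positivity)).trans ?_)
      rw [div_pow, mul_div_assoc', div_le_div_iff₀ (by positivity) (by positivity), pow_succ (Q : ℝ)]
      have h3 : J * 2 ^ (J + 1) * (2 * 2 ^ y) ≤ Q := by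
        rw [hQ]
        calc J * 2 ^ (J + 1) * (2 * 2 ^ y) ≤ 2 ^ J * 2 ^ (J + 1) * (2 * 2 ^ y) :=
              Nat.mul_le_mul_right _ (Nat.mul_le_mul_right _ hJ2)
          _ = 2 ^ (2 * J + y + 2) := by ring
          _ ≤ 2 ^ (lm * u) := Nat.pow_le_pow_right (by norm_num) (by nlinarith)
      have h3r : (J : ℝ) * 2 ^ (J + 1) * (2 * ((2 ^ y : ℕ) : ℝ)) ≤ Q := by
        push_cast
        exact_mod_cast h3
      calc (J : ℝ) * (Q : ℝ) ^ J * φ * 2 ^ (J + 1) * (2 * ((2 ^ y : ℕ) : ℝ))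
          = ((J : ℝ) * 2 ^ (J + 1) * (2 * ((2 ^ y : ℕ) : ℝ))) * (φ * (Q : ℝ) ^ J) := by ring
        _ ≤ Q * (φ * (Q : ℝ) ^ J) := mul_le_mul_of_nonneg_right h3r (by positivity)
        _ = _ := by ring
    rw [hsplit]
    refine (add_le_add hA hB).trans (le_of_eq ?_)
    have : (0 : ℝ) < ((2 ^ y : ℕ) : ℝ) := by positivity
    field_simp
    ring
  -- the sampling rate
  obtain ⟨x, hx⟩ : ∃ x : ℝ, x = φ * D / n := ⟨_, rfl⟩
  have hx1 : 1 ≤ x := by
    rw [hx, le_div_iff₀ hnr, one_mul]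
    exact hφD
  have hxD : x ≤ D := by
    rw [hx, div_le_iff₀ hnr, mul_comm]
    exact mul_le_mul_of_nonneg_left hφn (by positivity)
  have hfl : 1 ≤ ⌊x⌋₊ := Nat.le_floor (by rw [Nat.cast_one]; exact hx1)
  obtain ⟨θ, hθ⟩ : ∃ θ : ℕ, θ = Nat.log 2 ⌊x⌋₊ := ⟨_, rfl⟩
  have hθ1 : 2 ^ θ ≤ ⌊x⌋₊ := by
    rw [hθ]
    exact Nat.pow_log_le_self 2 (by omega)
  have hθ2 : ⌊x⌋₊ < 2 ^ (θ + 1) := by
    rw [hθ]
    exact Nat.lt_pow_succ_log_self (by norm_num) _
  have hflx : (⌊x⌋₊ : ℝ) ≤ x := Nat.floor_le (by linarith)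
  have hθ1r : ((2 ^ θ : ℕ) : ℝ) ≤ x := by
    refine le_trans ?_ hflx
    exact_mod_cast hθ1
  have hθ2r : x ≤ 2 * ((2 ^ θ : ℕ) : ℝ) := by
    have h1 := (Nat.lt_floor_add_one x).le
    refine h1.trans ?_
    have h2 : ⌊x⌋₊ + 1 ≤ 2 * 2 ^ θ := by
      rw [pow_succ] at hθ2
      omega
    exact_mod_cast h2
  have hθD : θ ≤ dex J y := by
    have h1 : (2 : ℕ) ^ θ ≤ 2 ^ dex J y := by
      rw [← hD]
      have : ((2 ^ θ : ℕ) : ℝ) ≤ D := hθ1r.trans hxD
      exact_mod_cast this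
    exact (Nat.pow_le_pow_iff_right (by norm_num)).1 h1
  refine ⟨u, j, θ, by omega, huJ, hj1, hjJ, hθD, ?_⟩
  rw [← hD, ← hQ]
  refine core hJ1 hjJ hD1 hE1 hQ4 Nat.one_le_two_pow hn0 ?_ t hℓ hφ hφ0 hS ?_ ?_
  · rw [hD]
    exact hn
  · rw [hx, le_div_iff₀ hnr] at hθ1r
    exact hθ1r
  · rw [hx, div_le_iff₀ hnr] at hθ2r
    exact hθ2r

end Pool.Agent.L0h6.LT2
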